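import Pool.Agent.MP_09973c_nt.H58.SpecF

/-!
Towers of radicals over a curve either merge or are independent: assembly.
-/

set_option autoImplicit false

namespace Pool.Agent.MP_09973c_nt.H72

open Polynomial Finset IntermediateField Classical Pool.Agent.MP_09973c_nt.H58

/-- Among `M + 1` disjoint windows one misses a given set with at most `M` elements. -/
theorem window (Bd : Finset ℕ) (M a N : ℕ) (h : Bd.card ≤ M) :
    ∃ l₀, a ≤ l₀ ∧ l₀ + N + 1 ≤ a + (M + 1) * (N + 1) ∧ ∀ l, l₀ ≤ l → l ≤ l₀ + N → l ∉ Bd := by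
  obtain ⟨q, hq, hq'⟩ := exists_mem_notMem_of_card_lt_card
    (s := Bd.image fun l => (l - a) / (N + 1)) (t := range (M + 1))
    (by rw [card_range]; exact Nat.lt_succ_of_le (card_image_le.trans h))
  have hq1 : q + 1 ≤ M + 1 := mem_range.1 hq
  refine ⟨a + q * (N + 1), Nat.le_add_right _ _, ?_, fun l h1 h2 hl => hq' ?_⟩
  · have := Nat.mul_le_mul_right (N + 1) hq1
    rw [add_mul, one_mul] at this
    omega
  · refine mem_image.2 ⟨l, hl, Nat.div_eq_of_lt_le (by omega) ?_⟩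
    rw [add_mul, one_mul]
    omega

theorem numeric (K₁ KM ℓ : ℕ) :
    2 * ℓ + 1 + K₁ * (ℓ + 1) +
      (16 * ((2 * (K₁ * (ℓ + 1)) + 1) * (2 * (K₁ * (ℓ + 1)) + ℓ + 2 * (K₁ * (ℓ + 1)))) + 1) *
        (5 * (K₁ * (ℓ + 1)) + KM * (ℓ + 1) + 1) + 5 * (K₁ * (ℓ + 1)) + 2 * ℓ + 1 ≤
      ((16 * ((2 * K₁ + 1) * (4 * K₁ + 1)) + 1) * (5 * K₁ + KM + 1) + (6 * K₁ + 4)) *
        (ℓ + 1) ^ 3 := by
  obtain ⟨n, hn⟩ : ∃ n, n = ℓ + 1 := ⟨_, rfl⟩
  rw [← hn]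
  have h1 : 1 ≤ n := by omega
  have a1 : 2 * (K₁ * n) + 1 ≤ (2 * K₁ + 1) * n := by nlinarith
  have a2 : 2 * (K₁ * n) + ℓ + 2 * (K₁ * n) ≤ (4 * K₁ + 1) * n := by nlinarith
  have a3 : 5 * (K₁ * n) + KM * n + 1 ≤ (5 * K₁ + KM + 1) * n := by nlinarith
  have a4 : 16 * ((2 * (K₁ * n) + 1) * (2 * (K₁ * n) + ℓ + 2 * (K₁ * n))) + 1 ≤
      (16 * ((2 * K₁ + 1) * (4 * K₁ + 1)) + 1) * n ^ 2 := by
    have := Nat.mul_le_mul a1 a2
    have h2 : 1 ≤ n ^ 2 := Nat.one_le_pow _ _ h1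
    nlinarith
  have a5 := Nat.mul_le_mul a4 a3
  have a6 : (6 * K₁ + 4) * n ≤ (6 * K₁ + 4) * n ^ 3 :=
    Nat.mul_le_mul_left _ (Nat.le_self_pow (by norm_num) n)
  have a7 : (6 * K₁ + 4) * n = 6 * (K₁ * n) + 4 * ℓ + 4 := by rw [hn]; ring
  have a8 : (16 * ((2 * K₁ + 1) * (4 * K₁ + 1)) + 1) * n ^ 2 * ((5 * K₁ + KM + 1) * n) =
      (16 * ((2 * K₁ + 1) * (4 * K₁ + 1)) + 1) * (5 * K₁ + KM + 1) * n ^ 3 := by ring
  rw [add_mul _ (6 * K₁ + 4), ← a8]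
  omega

section

variable {k Ω : Type} [Field k] [IsAlgClosed k] [CharZero k] [Field Ω] [IsAlgClosed Ω] [Algebra k Ω]
  {r s J Δ : ℕ} {S₀ : Set Ω}

/-- A place at which the first tower has its first zero at level `l + 1` gives the row
alternative. -/
theorem row (hD : DLStmt) (A B : Tw k r s J S₀) (hr : 2 ≤ r) (hs : 2 ≤ s) (hc : r.Coprime s)
    (hB : Bs k S₀ Δ) {l E : ℕ} (hl : l < J) (P : Plc k Ω) (h1 : P.VG S₀ 1)
    (h2 : ∀ b ∈ S₀, P.Loc b) (h3 : P.nz A.w l = 0) (h4 : P.ν (A.w (l + 1)) < 1)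
    (h5 : P.nz B.w (l + 1 - E) = 0) :
    dl k S₀ A.w B.w (l + 1) J = r * dl k S₀ A.w B.w l J ∨ ∃ j < J, l < j + E ∧
      dl k S₀ A.w B.w (l + 1) j = r * dl k S₀ A.w B.w l j ∧
      dl k S₀ A.w B.w l (j + 1) = r * dl k S₀ A.w B.w l j := by
  obtain ⟨-, sy, d3, -⟩ := hD k Ω r s J Δ S₀ A B hr hs hc hB
  obtain ⟨-, -, d3', -⟩ := hD k Ω r s J Δ S₀ B A hr hs hc hB
  by_cases h0 : P.nz B.w J = 0
  · exact Or.inl (d3 P h1 (h2 _ A.hb) (h2 _ B.hb) l hl J le_rfl (by omega) h4)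
  have hex : ∃ j, P.nz B.w (j + 1) ≠ 0 := by
    obtain ⟨j, rfl⟩ : ∃ j, J = j + 1 := ⟨J - 1, by omega⟩
    exact ⟨j, h0⟩
  have f1 := Nat.find_spec hex
  have f2 : P.nz B.w (Nat.find hex) = 0 := by
    rcases Nat.eq_zero_or_pos (Nat.find hex) with h | h
    · rw [h, Plc.nz_zero]
    · have := Nat.find_min hex (m := Nat.find hex - 1) (by omega)
      rwa [Nat.sub_add_cancel h, not_not] at this
  have f3 : Nat.find hex < J := by
    have : Nat.find hex ≤ J - 1 := Nat.find_min' hex (by rwa [Nat.sub_add_cancel (by omega)])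
    omega
  generalize Nat.find hex = j at f1 f2 f3
  have f4 : P.ν (B.w (j + 1)) < 1 := by
    by_contra h
    rw [Plc.nz_succ, if_neg h] at f1
    exact f1 f2
  have f5 : l < j + E := by
    by_contra h
    have := Plc.nz_mono (P := P) B.w (show j + 1 ≤ l + 1 - E by omega)
    omega
  refine Or.inr ⟨j, f3, f5, d3 P h1 (h2 _ A.hb) (h2 _ B.hb) l hl j f3.le (by omega) h4, ?_⟩
  rw [sy, sy]
  exact d3' P h1 (h2 _ B.hb) (h2 _ A.hb) j f3 l hl.le (by omega) f4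

/-- A small cell far out forces a common pole. -/
theorem common (hPo : PoleStmt) (A B : Tw k r s J S₀) (hr : 2 ≤ r) (hs : 2 ≤ s) (hc : r.Coprime s)
    {ℓ : ℕ} (hB : Bs k S₀ (2 ^ ℓ)) {i j W x : ℕ} (hi : i ≤ J) (hj : j ≤ J)
    (h : dl k S₀ A.w B.w i j < W * r ^ i) (hW : W * 2 ^ ℓ ≤ 2 ^ x) (hx : 2 * (x + ℓ) ≤ j) :
    (∃ P : Plc k Ω, P.ord A.b < 0 ∧ P.ord B.b < 0) ∧ ∀ i < J, ∀ j < J, 2 * ℓ + 1 ≤ i →
      2 * ℓ + 1 ≤ j → r * dl k S₀ A.w B.w i j ≤ dl k S₀ A.w B.w (i + 1) (j + 1) := by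
  rcases (hPo k Ω r s J _ S₀ A B hr hs hc hB).2 with ⟨h1, h2⟩ | h1
  · have e : ∀ i, 2 * ℓ + 1 ≤ i → (2 ^ ℓ) ^ 2 < 2 ^ i := fun i hi => by
      rw [← pow_mul]; exact Nat.pow_lt_pow_right (by norm_num) (by omega)
    exact ⟨h1, fun i hi j hj a b => h2 i hi j hj (e i a) (e j b)⟩
  · exfalso
    have h2 := h1 i hi j hj
    have h3 : (2 ^ ℓ) ^ 2 * r ^ ((j + 1) / 2) * dl k S₀ A.w B.w i j <
        (2 ^ ℓ) ^ 2 * r ^ ((j + 1) / 2) * (W * r ^ i) :=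
      Nat.mul_lt_mul_of_pos_left h (by positivity)
    have h4 : (2 ^ ℓ) ^ 2 * W ≤ r ^ (x + ℓ) := by
      calc (2 ^ ℓ) ^ 2 * W = W * 2 ^ ℓ * 2 ^ ℓ := by ring
        _ ≤ 2 ^ x * 2 ^ ℓ := Nat.mul_le_mul_right _ hW
        _ = 2 ^ (x + ℓ) := (pow_add _ _ _).symm
        _ ≤ r ^ (x + ℓ) := Nat.pow_le_pow_left hr _
    have h5 : r ^ (i + j) < r ^ (x + ℓ + ((j + 1) / 2 + i)) := by
      calc r ^ (i + j) < (2 ^ ℓ) ^ 2 * r ^ ((j + 1) / 2) * (W * r ^ i) := h2.trans_lt h3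
        _ = (2 ^ ℓ) ^ 2 * W * r ^ ((j + 1) / 2 + i) := by rw [pow_add]; ring
        _ ≤ r ^ (x + ℓ) * r ^ ((j + 1) / 2 + i) := Nat.mul_le_mul_right _ h4
        _ = _ := (pow_add _ _ _).symm
    have := (Nat.pow_lt_pow_iff_right (by omega)).1 h5
    omega

end

/-- Towers over a curve either merge or are independent. -/
theorem ff (hBC : BCStmt) (hT : TowStmt) (hD : DLStmt) (hPo : PoleStmt) (hG : GPStmt)
    (hP1 : Pat1Stmt) (hP2 : Pat2Stmt) (hS : StrongStmt) (hM : MergeStmt) : FFStmt := by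
  intro r s C ρ hr hs hc hC hρ hρ'
  obtain ⟨KG, hG⟩ := hG r s C ρ hr hs hc hC hρ hρ'
  obtain ⟨KM, hM⟩ := hM r s C ρ hr hs hc hC hρ hρ'
  refine ⟨(16 * ((2 * (KG + 1) + 1) * (4 * (KG + 1) + 1)) + 1) * (5 * (KG + 1) + KM + 1) +
    (6 * (KG + 1) + 4), ?_⟩
  intro k Ω _ _ _ _ _ _ u v R ℓ α J₀ J Pm hu hv ha hR hR1 hR2 hR3 hPm hJ₀ hJ I _ T hI hH
  have hB : Bs k {u, v} (2 ^ ℓ) :=
    hBC k Ω u v R _ hu hv ha hR Nat.one_le_two_pow hR1 hR2 hR3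
  have num := numeric (KG + 1) KM ℓ
  have hE1 : KG * (ℓ + 1) + 1 ≤ (KG + 1) * (ℓ + 1) := by nlinarith
  generalize (KG + 1) * (ℓ + 1) = E at num hE1
  generalize hY : KM * (ℓ + 1) = Y at num
  have hW : E * 2 ^ E * 2 ^ ℓ ≤ 2 ^ (2 * E + ℓ) := by
    rw [two_mul, pow_add, pow_add]
    exact Nat.mul_le_mul_right _ (Nat.mul_le_mul_right _ Nat.lt_two_pow_self.le)
  have gp := fun m i A => hG k Ω J ℓ Pm E (E * 2 ^ E) {u, v} hB hPm (by omega)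
    (Nat.mul_le_mul_left _ (Nat.pow_le_pow_right two_pos (by omega))) I T hI m i A (hH m)
  let δ : I → I → ℕ → ℕ → ℕ := fun m m' => dl k {u, v} (T m).w (T m').w
  let Ed : I → I → Prop := fun m m' =>
    ∃ i, J₀ < i ∧ i ≤ J ∧ ∃ j, j ≤ i ∧ i ≤ j + E ∧ δ m m' i j < E * 2 ^ E * r ^ i
  obtain ⟨X, hX⟩ : ∃ X, X = (2 * E + 1) * (2 * E + ℓ + 2 * E) := ⟨_, rfl⟩
  rw [← hX] at num
  have big : 5 * E + 4 * ℓ ≤ J₀ := by omega
  have com : ∀ m m', Ed m m' → _ := fun m m' ⟨i, h1, h2, j, h3, h4, h5⟩ =>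
    common hPo (T m) (T m') hr hs hc hB h2 (h3.trans h2) h5 hW (by omega)
  let bad : I × I → Finset ℕ := fun p => (range (J₀ - 2 * E)).filter fun l =>
    Ed p.1 p.2 ∧ 2 * ℓ + 1 + E ≤ l ∧ Exc r E (δ p.1 p.2) l
  have hbad : ∀ p, (bad p).card ≤ X := by
    rintro ⟨m, m'⟩
    by_cases he : Ed m m'
    · have c := (com m m' he).2
      obtain ⟨i, h1, h2, j, h3, h4, h5⟩ := he
      rw [hX]
      refine le_trans (card_le_card fun l hl => ?_) (hP1 r J E (2 * ℓ + 1) (2 * E + ℓ) i j (δ m m')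
        (2 ^ ℓ) (E * 2 ^ E) hr (hD k Ω r s J _ _ (T m) (T m') hr hs hc hB).1
        (hPo k Ω r s J _ _ (T m) (T m') hr hs hc hB).1 c h2 h3 h4 h5 hW)
      rw [mem_filter, mem_range] at hl ⊢
      exact ⟨by omega, hl.2.2⟩
    · simp [bad, he]
  obtain ⟨l₀, w1, w2, w3⟩ := window (univ.biUnion bad) (16 * X) (α + (2 * ℓ + 1 + E)) (5 * E + Y)
    (card_biUnion_le.trans ((sum_le_card_nsmul _ _ X fun p _ => hbad p).trans (by
      rw [card_univ, Fintype.card_prod, smul_eq_mul]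
      exact Nat.mul_le_mul_right _ (Nat.mul_le_mul hI hI))))
  have w4 : l₀ + (5 * E + Y) + 2 * E < J₀ := by omega
  have rw' : ∀ m m' l, l₀ ≤ l → l < J → δ m m' (l + 1) J = r * δ m m' l J ∨ ∃ j < J, l < j + E ∧
      δ m m' (l + 1) j = r * δ m m' l j ∧ δ m m' l (j + 1) = r * δ m m' l j := by
    intro m m' l h1 h2
    obtain ⟨P, p1, p2, p3, p4, p5, -⟩ := gp m (l + 1) ∅ (by omega) h2 (by simp)
    exact row hD (T m) (T m') hr hs hc hB h2 P p1 p2 p3 p4 (p5 m')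
  refine ⟨Ed, l₀ + 2 * E + (E + Y), by omega, by omega, fun m m' he => ?_,
    fun A hA => hS k Ω r s J J₀ _ _ hr hB I T A fun m hm i h1 h2 => ?_⟩
  · obtain ⟨dt, sy, -, -⟩ := hD k Ω r s J _ _ (T m) (T m') hr hs hc hB
    obtain ⟨j₁, q1, q2, q3⟩ := hP2 r J E l₀ (5 * E + Y) (δ m m') hr (by omega) dt (by omega)
      (by omega) (by omega) (fun l h1 h2 h3 => w3 l h1 h2 (mem_biUnion.2 ⟨(m, m'), mem_univ _,
        mem_filter.2 ⟨mem_range.2 (by omega), he, by omega, h3⟩⟩)) (rw' m m') fun j h1 h2 => by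
        have e : ∀ a b, δ m m' a b = δ m' m b a := sy
        simp only [e]
        exact (rw' m' m j h1 h2).imp_right fun ⟨l, a, b, c, d⟩ => ⟨l, a, b, d, c⟩
    exact ⟨j₁ + (E + Y), by omega, by omega, hM k Ω J ℓ Pm E _ (T m) (T m') hB hPm (hH m) (hH m')
      (com m m' he).1 (l₀ + 2 * E) j₁ (E + Y) (by omega) (by omega) (by omega) (by omega)
      (fun t ht => q3 t (by omega)) (E + Y) (by omega) le_rfl⟩
  · obtain ⟨P, p1, p2, p3, p4, -, p5⟩ := gp m (i + 1) (A \ {m}) (by omega) h2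
      fun m' hm' j h3 h4 => not_lt.1 fun h5 =>
        hA m hm m' hm'.1 (fun e => hm'.2 e.symm) ⟨i + 1, by omega, h2, j, h3, h4, h5⟩
    have := (hT k Ω r s J _ P hr hs hc).2 I T A (fun m' => if m' = m then i else i + 1) m p1
      (fun m' => p2 _ (T m').hb) (fun m' _ => by split_ifs <;> omega) (by rwa [if_pos rfl])
      (fun m' hm' => by
        by_cases e : m' = m
        · rw [e]
        · rw [if_neg e, p5 m' ⟨hm', e⟩]; exact Nat.zero_le _)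
      (by rwa [if_pos rfl])
    rw [if_pos rfl] at this
    refine this.mono (Set.Subset.trans ?_ (subset_adjoin k _))
    rintro y ((hy | hy) | hy)
    · exact Or.inl hy
    · exact Or.inr (Set.mem_biUnion hm (by rwa [if_pos rfl]))
    · obtain ⟨m', hm', hy⟩ := Set.mem_iUnion₂.1 hy
      exact Or.inr (Set.mem_biUnion hm'.1 (by rwa [if_neg (show m' ≠ m from hm'.2)]))

end Pool.Agent.MP_09973c_nt.H72
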